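import Mathlib

/-!
# Gcd recursions with a nearly linear modulus: the loss over a window of times

`a(t) = a(t-1) - gcd(a(t-1), u_t)` with `t ≤ u_t ≤ t + 6` and `u_{t+1} ≠ u_t`. While `a` is of
order `T ^ 2`, the total decrease over the window `[T, R T)` is at most `T ^ 2` once `T` is large.
-/

set_option autoImplicit false

namespace Pool.Agent.R797.GcdSqrt

open Finset

/-- the gcd subtracted at time `t` -/
def g (a : ℕ → ℤ) (u : ℕ → ℕ) (t : ℕ) : ℕ := Int.gcd (a (t - 1)) (u t : ℤ)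

/-- the gcd recursion with moduli `u` -/
structure Rec (a : ℕ → ℤ) (u : ℕ → ℕ) : Prop where
  step : ∀ t, 2 ≤ t → a t = a (t - 1) - (g a u t : ℤ)
  lo : ∀ t, t ≤ u t
  hi : ∀ t, u t ≤ t + 6
  ne : ∀ t, u (t + 1) ≠ u t

variable {a : ℕ → ℤ} {u : ℕ → ℕ}

lemma g_pos (h : Rec a u) {t : ℕ} (ht : 1 ≤ t) : 1 ≤ g a u t := by
  have h1 := h.lo t
  refine Nat.pos_of_ne_zero ?_
  intro h0
  have := Int.gcd_eq_zero_iff.1 h0
  omega

lemma g_le (h : Rec a u) {t : ℕ} (ht : 1 ≤ t) : g a u t ≤ t + 6 := by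
  have h1 := h.lo t
  have h2 : g a u t ≤ u t := by
    have : (g a u t : ℤ) ∣ (u t : ℤ) := Int.gcd_dvd_right ..
    exact Nat.le_of_dvd (by omega) (by exact_mod_cast this)
  exact h2.trans (h.hi t)

lemma anti (h : Rec a u) {t : ℕ} (ht : 1 ≤ t) (k : ℕ) : a (t + k) + k ≤ a t := by
  induction k with
  | zero => simp
  | succ k ih =>
    have h1 := h.step (t + k + 1) (by omega)
    have h2 := g_pos h (t := t + k + 1) (by omega)
    have h3 : t + k + 1 - 1 = t + k := by omega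
    rw [h3] at h1
    have h4 : a (t + (k + 1)) = a (t + k) - (g a u (t + k + 1) : ℤ) := h1
    have h5 : (1 : ℤ) ≤ (g a u (t + k + 1) : ℤ) := by exact_mod_cast h2
    rw [h4]
    push_cast
    linarith

lemma diff_le (h : Rec a u) {t : ℕ} (ht : 1 ≤ t) (L T : ℕ) (k : ℕ)
    (hs : ∀ s, t < s → s ≤ t + k → L * g a u s ≤ T) :
    (L : ℤ) * (a t - a (t + k)) ≤ k * T := by
  induction k with
  | zero => simp
  | succ k ih =>
    have h1 := h.step (t + k + 1) (by omega)
    have h3 : t + k + 1 - 1 = t + k := by omega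
    rw [h3] at h1
    have h4 : a (t + (k + 1)) = a (t + k) - (g a u (t + k + 1) : ℤ) := h1
    have h5 := ih (fun s h1 h2 => hs s h1 (by omega))
    have h6 : (L : ℤ) * (g a u (t + k + 1) : ℤ) ≤ T := by
      exact_mod_cast hs (t + k + 1) (by omega) (by omega)
    rw [h4]
    push_cast
    linarith

lemma relation (h : Rec a u) {t t' : ℕ} (ht : 2 ≤ t) :
    ∃ l l' m : ℤ, (u t : ℤ) = g a u t * l ∧ (u t' : ℤ) = g a u t' * l' ∧
      l * l' * (((u t' : ℤ) - u t) * a (t' - 1) + (a t - a (t' - 1)) * u t')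
        = u t * u t' * m := by
  obtain ⟨l, hl⟩ : (g a u t : ℤ) ∣ (u t : ℤ) := Int.gcd_dvd_right ..
  obtain ⟨K, hK⟩ : (g a u t : ℤ) ∣ a (t - 1) := Int.gcd_dvd_left ..
  obtain ⟨l', hl'⟩ : (g a u t' : ℤ) ∣ (u t' : ℤ) := Int.gcd_dvd_right ..
  obtain ⟨K', hK'⟩ : (g a u t' : ℤ) ∣ a (t' - 1) := Int.gcd_dvd_left ..
  refine ⟨l, l', l' * (K - 1) - l * K', hl, hl', ?_⟩
  have h1 := h.step t ht
  have h2 : a t = g a u t * (K - 1) := by rw [h1, hK]; ring
  rw [h2, hK', hl, hl']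
  ring

lemma l_le {L R T gg l U : ℤ} (hT : 0 < T) (hL : 0 ≤ L) (h1 : U = gg * l) (h2 : T ≤ L * gg)
    (hl : 0 < l) (h3 : U ≤ (R + 1) * T) : l ≤ L * (R + 1) := by
  have h4 : T * l ≤ L * (gg * l) := by
    have := mul_le_mul_of_nonneg_right h2 hl.le
    linarith [this]
  rw [← h1] at h4
  have h5 : L * U ≤ L * ((R + 1) * T) := mul_le_mul_of_nonneg_left h3 hL
  have h6 : T * l ≤ T * (L * (R + 1)) := by linarith [h4, h5]
  exact le_of_mul_le_mul_left h6 hT

lemma contra {ll σ U m L' T J Q : ℤ} (hll : 0 < ll) (hllQ : ll ≤ Q) (hσ : 1 ≤ σ)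
    (hU : T ≤ U) (hT : 0 < T) (h : ll * σ = U * m) (hσJ : L' * σ ≤ J * T) (hJ : 0 ≤ J)
    (hL' : Q * J < L') : False := by
  have hU0 : 0 < U := lt_of_lt_of_le hT hU
  have h5 : 0 < U * m := by rw [← h]; exact mul_pos hll (by linarith)
  have h6 : 0 < m := (mul_pos_iff_of_pos_left hU0).1 h5
  have h7 : T ≤ ll * σ := by
    rw [h]
    have : U * 1 ≤ U * m := mul_le_mul_of_nonneg_left h6 hU0.le
    linarith
  have hL0 : 0 ≤ L' := by
    have : 0 ≤ Q * J := mul_nonneg (by linarith) hJ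
    linarith
  have h8 : L' * T ≤ L' * (ll * σ) := mul_le_mul_of_nonneg_left h7 hL0
  have h9 : ll * (L' * σ) ≤ ll * (J * T) := mul_le_mul_of_nonneg_left hσJ hll.le
  have h10 : ll * (J * T) ≤ Q * (J * T) := mul_le_mul_of_nonneg_right hllQ (by positivity)
  have h11 : L' * T ≤ (Q * J) * T := by linarith [h8, h9, h10]
  have h12 := le_of_mul_le_mul_right h11 hT
  linarith

/-- the real estimate -/
lemma real_est {q m ll σ A U U' x J H T L' Q1 Q2 : ℝ} (hT : 0 < T) (hTx : T ≤ x) (hTU : T ≤ U)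
    (hTU' : T ≤ U') (hx1 : 1 ≤ x) (hU1 : x - J ≤ U) (hU2 : U ≤ x + 6) (hx : x ≤ U')
    (hU3 : U' ≤ x + 6) (hJ : 0 ≤ J) (hH : 0 ≤ H) (hL' : 0 < L')
    (hA0 : 0 ≤ A) (hA : A ≤ H * T ^ 2) (hrel : q * A + ll * σ * U' = U * U' * m)
    (hll0 : 0 ≤ ll) (hll : ll ≤ Q1) (hσ0 : 0 ≤ σ) (hσ : L' * σ ≤ J * T) (hq : |q| ≤ Q2) :
    |q * (A / x ^ 2) - m| ≤ Q1 * J / L' + Q2 * (H * (J + 48)) / T := by
  have hx0 : 0 < x := by linarith
  have hU0 : 0 < U := by linarith
  have hU0' : 0 < U' := by linarith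
  have e1 : q * (A / x ^ 2) - m = q * (A / x ^ 2 - A / (U * U')) - ll * σ / U := by
    have : m = q * (A / (U * U')) + ll * σ / U := by
      field_simp
      linarith
    rw [this]; ring
  have e2 : A / x ^ 2 - A / (U * U') = A * (U * U' - x ^ 2) / (x ^ 2 * (U * U')) := by
    field_simp
  have e3 : |U * U' - x ^ 2| ≤ (J + 48) * x := by
    rw [abs_le]
    constructor
    · have : (x - J) * x ≤ U * U' := by
        calc (x - J) * x ≤ U * x := mul_le_mul_of_nonneg_right hU1 hx0.le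
          _ ≤ U * U' := mul_le_mul_of_nonneg_left hx hU0.le
      nlinarith
    · have : U * U' ≤ (x + 6) * (x + 6) := mul_le_mul hU2 hU3 hU0'.le (by linarith)
      nlinarith
  have e4 : |A / x ^ 2 - A / (U * U')| ≤ H * (J + 48) / T := by
    rw [e2, abs_div, abs_mul, abs_of_nonneg hA0, abs_of_pos (by positivity : 0 < x ^ 2 * (U * U'))]
    rw [div_le_div_iff₀ (by positivity) hT]
    have h1 : A * |U * U' - x ^ 2| ≤ (H * T ^ 2) * ((J + 48) * x) :=
      mul_le_mul hA e3 (abs_nonneg _) (by positivity)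
    have h2 : T * T ≤ U * U' := mul_le_mul hTU hTU' hT.le hU0.le
    have h3 : T * (T * T) ≤ x * (U * U') := mul_le_mul hTx h2 (by positivity) hx0.le
    have h4 : 0 ≤ H * (J + 48) * x := by positivity
    calc A * |U * U' - x ^ 2| * T ≤ (H * T ^ 2) * ((J + 48) * x) * T :=
          mul_le_mul_of_nonneg_right h1 hT.le
      _ = (H * (J + 48) * x) * (T * (T * T)) := by ring
      _ ≤ (H * (J + 48) * x) * (x * (U * U')) := mul_le_mul_of_nonneg_left h3 h4
      _ = H * (J + 48) * (x ^ 2 * (U * U')) := by ring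
  have e5 : |ll * σ / U| ≤ Q1 * J / L' := by
    rw [abs_of_nonneg (by positivity), div_le_div_iff₀ hU0 hL']
    calc ll * σ * L' = ll * (L' * σ) := by ring
      _ ≤ ll * (J * T) := mul_le_mul_of_nonneg_left hσ hll0
      _ ≤ Q1 * (J * T) := mul_le_mul_of_nonneg_right hll (by positivity)
      _ = Q1 * J * T := by ring
      _ ≤ Q1 * J * U := by
          apply mul_le_mul_of_nonneg_left hTU
          have : 0 ≤ Q1 := hll0.trans hll
          positivity
  rw [e1]
  calc |q * (A / x ^ 2 - A / (U * U')) - ll * σ / U|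
      ≤ |q * (A / x ^ 2 - A / (U * U'))| + |ll * σ / U| := abs_sub _ _
    _ ≤ Q2 * (H * (J + 48) / T) + Q1 * J / L' := by
        rw [abs_mul]
        exact add_le_add (mul_le_mul hq e4 (abs_nonneg _) ((abs_nonneg _).trans hq)) e5
    _ = Q1 * J / L' + Q2 * (H * (J + 48)) / T := by ring

lemma near (h : Rec a u) {R H J L L' T t t' : ℕ} (hT : 6 ≤ T)
    (htT : T ≤ t) (htt : t < t') (hJ : t' ≤ t + J) (htR : t' ≤ R * T)
    (hg : T ≤ L * g a u t) (hg' : T ≤ L * g a u t')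
    (hs : ∀ s, t < s → s < t' → L' * g a u s < T)
    (hL' : (L * (R + 1)) ^ 2 * J < L')
    (hA0 : 0 ≤ a (t' - 1)) (hA : a (t' - 1) ≤ H * (T : ℤ) ^ 2) :
    ∃ q m : ℤ, q ≠ 0 ∧ |q| ≤ (((L * (R + 1)) ^ 2 * (J + 6) : ℕ) : ℤ) ∧
      |(q : ℝ) * (a (t' - 1) / (t' : ℝ) ^ 2) - m| ≤
        (((L * (R + 1)) ^ 2 : ℕ) : ℝ) * J / L' +
          (((L * (R + 1)) ^ 2 * (J + 6) : ℕ) : ℝ) * ((H : ℝ) * (J + 48)) / T := by
  obtain ⟨l, l', m, hl, hl', hrel⟩ := relation h (t := t) (t' := t') (by omega)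
  obtain ⟨P, hP⟩ : ∃ P : ℤ, P = (L : ℤ) * ((R : ℤ) + 1) := ⟨_, rfl⟩
  have hTz : (6 : ℤ) ≤ T := by exact_mod_cast hT
  have hT0 : (0 : ℤ) < T := by linarith
  have hu1 : (t : ℤ) ≤ u t := by exact_mod_cast h.lo t
  have hu2 : (u t : ℤ) ≤ t + 6 := by exact_mod_cast h.hi t
  have hu1' : (t' : ℤ) ≤ u t' := by exact_mod_cast h.lo t'
  have hu2' : (u t' : ℤ) ≤ t' + 6 := by exact_mod_cast h.hi t'
  have htz : (T : ℤ) ≤ t := by exact_mod_cast htT
  have httz : (t : ℤ) + 1 ≤ t' := by exact_mod_cast htt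
  have hJz : (t' : ℤ) ≤ t + J := by exact_mod_cast hJ
  have htRz : (t' : ℤ) ≤ R * T := by exact_mod_cast htR
  have hgz : (T : ℤ) ≤ L * g a u t := by exact_mod_cast hg
  have hgz' : (T : ℤ) ≤ L * g a u t' := by exact_mod_cast hg'
  have hg1 : (0 : ℤ) < g a u t := by exact_mod_cast g_pos h (by omega)
  have hg1' : (0 : ℤ) < g a u t' := by exact_mod_cast g_pos h (by omega)
  have hU0 : (0 : ℤ) < u t := by linarith
  have hU0' : (0 : ℤ) < u t' := by linarith
  have hl0 : 0 < l := by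
    rw [hl] at hU0
    exact (mul_pos_iff_of_pos_left hg1).1 hU0
  have hl0' : 0 < l' := by
    rw [hl'] at hU0'
    exact (mul_pos_iff_of_pos_left hg1').1 hU0'
  have hL0 : (0 : ℤ) ≤ L := by positivity
  have hlP : l ≤ P := by
    rw [hP]; exact l_le hT0 hL0 hl hgz hl0 (by linarith)
  have hlP' : l' ≤ P := by
    rw [hP]; exact l_le hT0 hL0 hl' hgz' hl0' (by linarith)
  have hll : l * l' ≤ P ^ 2 := by
    rw [pow_two]; exact mul_le_mul hlP hlP' hl0'.le (by linarith)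
  have hll0 : 0 < l * l' := mul_pos hl0 hl0'
  -- the decrease strictly between
  obtain ⟨k, hk⟩ : ∃ k, t' - 1 = t + k := ⟨t' - 1 - t, by omega⟩
  have hσ := diff_le h (t := t) (by omega) L' T k (fun s h1 h2 => (hs s h1 (by omega)).le)
  rw [← hk] at hσ
  have hanti := anti h (t := t) (by omega) k
  rw [← hk] at hanti
  obtain ⟨A, hAdef⟩ : ∃ A, A = a (t' - 1) := ⟨_, rfl⟩
  rw [← hAdef] at hrel hA0 hA hσ hanti ⊢
  obtain ⟨σ, hσdef⟩ : ∃ σ, σ = a t - A := ⟨_, rfl⟩
  rw [← hσdef] at hrel hσ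
  have hk0 : (0 : ℤ) ≤ k := by positivity
  have hσ0 : 0 ≤ σ := by rw [hσdef]; linarith
  have hkJ : (k : ℤ) ≤ J := by
    have : k ≤ J := by omega
    exact_mod_cast this
  have hσJ : (L' : ℤ) * σ ≤ J * T := hσ.trans (mul_le_mul_of_nonneg_right hkJ hT0.le)
  have hL'z : P ^ 2 * J < (L' : ℤ) := by
    rw [hP]; exact_mod_cast hL'
  have hJ0 : (0 : ℤ) ≤ J := by positivity
  have hP0 : 0 ≤ P ^ 2 := sq_nonneg P
  have hne : (u t' : ℤ) - u t ≠ 0 := by
    intro h0
    rw [h0] at hrel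
    have h1 : l * l' * σ = u t * m := by
      have h2 : (l * l' * σ) * u t' = (u t * m) * u t' := by linear_combination hrel
      exact mul_right_cancel₀ hU0'.ne' h2
    rcases Nat.lt_or_ge (t + 1) t' with h2 | h2
    · have h3 : (1 : ℤ) ≤ k := by
        have : 1 ≤ k := by omega
        exact_mod_cast this
      have h4 : 1 ≤ σ := by rw [hσdef]; linarith
      exact contra hll0 hll h4 (by linarith) hT0 h1 hσJ hJ0 hL'z
    · have h3 : t' = t + 1 := by omega
      have := h.ne t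
      rw [h3] at h0
      apply this
      have : (u (t + 1) : ℤ) = u t := by linarith
      exact_mod_cast this
  have hj : |(u t' : ℤ) - u t| ≤ J + 6 := by
    rw [abs_le]; constructor <;> linarith
  have hqQ : |l * l' * ((u t' : ℤ) - u t)| ≤ (((L * (R + 1)) ^ 2 * (J + 6) : ℕ) : ℤ) := by
    rw [abs_mul, abs_of_pos hll0]
    push_cast
    rw [← hP]
    exact mul_le_mul hll hj (abs_nonneg _) hP0
  refine ⟨l * l' * ((u t' : ℤ) - u t), m, mul_ne_zero hll0.ne' hne, hqQ, ?_⟩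
  refine real_est (ll := ((l * l' : ℤ) : ℝ)) (σ := (σ : ℝ)) (U := (u t : ℝ)) (U' := (u t' : ℝ))
    (by exact_mod_cast hT0) (by exact_mod_cast (by omega : T ≤ t'))
    (by exact_mod_cast (by have := h.lo t; omega : T ≤ u t))
    (by exact_mod_cast (by have := h.lo t'; omega : T ≤ u t'))
    (by exact_mod_cast (by omega : 1 ≤ t')) ?_ ?_ (by exact_mod_cast h.lo t')
    (by exact_mod_cast h.hi t') (by positivity) (by positivity)
    (by exact_mod_cast lt_of_le_of_lt (Nat.zero_le _) hL') (by exact_mod_cast hA0)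
    (by exact_mod_cast hA) ?_ (by exact_mod_cast hll0.le) ?_ (by exact_mod_cast hσ0)
    (by exact_mod_cast hσJ) ?_
  · have : (t' : ℤ) - J ≤ u t := by linarith
    exact_mod_cast this
  · have : (u t : ℤ) ≤ t' + 6 := by linarith
    exact_mod_cast this
  · have : l * l' * ((u t' : ℤ) - u t) * A + l * l' * σ * u t' = u t * u t' * m := by
      linear_combination hrel
    exact_mod_cast this
  · rw [hP] at hll
    exact_mod_cast hll
  · have := (Int.cast_le (R := ℝ)).2 hqQ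
    rw [Int.cast_abs] at this
    exact_mod_cast this

lemma card_le_of_diam (S : Finset ℕ) (D : ℝ) (hD : 0 ≤ D)
    (h : ∀ x ∈ S, ∀ y ∈ S, x < y → ((y : ℝ) - x) ≤ D) : (S.card : ℝ) ≤ D + 1 := by
  rcases S.eq_empty_or_nonempty with rfl | hne
  · simp; linarith
  · have h1 : S ⊆ Icc (S.min' hne) (S.max' hne) := by
      intro x hx
      rw [mem_Icc]
      exact ⟨S.min'_le x hx, S.le_max' x hx⟩
    have h2 := card_le_card h1
    rw [Nat.card_Icc] at h2
    have h3 : S.min' hne ≤ S.max' hne := S.min'_le_max' hne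
    have h4 : (S.card : ℝ) ≤ (S.max' hne : ℝ) - S.min' hne + 1 := by
      have h5 : (S.card : ℝ) ≤ ((S.max' hne + 1 - S.min' hne : ℕ) : ℝ) := by exact_mod_cast h2
      rw [Nat.cast_sub (by omega)] at h5
      push_cast at h5
      linarith
    rcases h3.eq_or_lt with h5 | h5
    · rw [h5] at h4
      linarith
    · have := h _ (S.min'_mem hne) _ (S.max'_mem hne) h5
      linarith

lemma rho_gap (h : Rec a u) {R T x y : ℕ} (hT : 2 ≤ T) (hx : T ≤ x) (hxy : x < y)
    (hy : y ≤ R * T) (hA : (T : ℤ) ^ 2 ≤ a (y - 1)) :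
    ((y : ℝ) - x) ≤
      (R : ℝ) ^ 3 * T * ((a (x - 1) : ℝ) / (x : ℝ) ^ 2 - (a (y - 1) : ℝ) / (y : ℝ) ^ 2) := by
  have h1 := anti h (t := x - 1) (by omega) (y - x)
  have e1 : x - 1 + (y - x) = y - 1 := by omega
  rw [e1] at h1
  have h2 : (a (y - 1) : ℝ) ≤ a (x - 1) := by
    have : a (y - 1) ≤ a (x - 1) := by
      have : (0 : ℤ) ≤ ((y - x : ℕ) : ℤ) := by positivity
      linarith
    exact_mod_cast this
  have hAr : (T : ℝ) ^ 2 ≤ a (y - 1) := by exact_mod_cast hA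
  have hT0 : (0 : ℝ) < T := by exact_mod_cast (by omega : 0 < T)
  have hxr : (T : ℝ) ≤ x := by exact_mod_cast hx
  have hx0 : (0 : ℝ) < x := by linarith
  have hxyr : (x : ℝ) < y := by exact_mod_cast hxy
  have hy0 : (0 : ℝ) < y := by linarith
  have hyR : (y : ℝ) ≤ R * T := by exact_mod_cast hy
  generalize (a (y - 1) : ℝ) = A at h2 hAr ⊢
  generalize (a (x - 1) : ℝ) = A1 at h2 ⊢
  generalize (x : ℝ) = X at *
  generalize (y : ℝ) = Y at *
  generalize (T : ℝ) = t at *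
  generalize (R : ℝ) = r at *
  have hr0 : 0 < r := by
    by_contra hc
    push Not at hc
    have : r * t ≤ 0 := mul_nonpos_of_nonpos_of_nonneg hc hT0.le
    linarith
  have e2 : A / X ^ 2 - A / Y ^ 2 ≤ A1 / X ^ 2 - A / Y ^ 2 := by
    have : A / X ^ 2 ≤ A1 / X ^ 2 := div_le_div_of_nonneg_right h2 (by positivity)
    linarith
  have e3 : t ^ 2 * (Y - X) / (X ^ 2 * Y) ≤ A / X ^ 2 - A / Y ^ 2 := by
    have e4 : A / X ^ 2 - A / Y ^ 2 = A * ((Y - X) * (Y + X)) / (X ^ 2 * Y ^ 2) := by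
      field_simp
      ring
    rw [e4, div_le_div_iff₀ (by positivity) (by positivity)]
    have h5 : 0 ≤ Y - X := by linarith
    have h6 : t ^ 2 * (Y - X) * Y ≤ A * ((Y - X) * (Y + X)) := by
      calc t ^ 2 * (Y - X) * Y = t ^ 2 * ((Y - X) * Y) := by ring
        _ ≤ A * ((Y - X) * Y) := mul_le_mul_of_nonneg_right hAr (by positivity)
        _ ≤ A * ((Y - X) * (Y + X)) := by
            apply mul_le_mul_of_nonneg_left _ ((sq_nonneg t).trans hAr)
            apply mul_le_mul_of_nonneg_left _ h5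
            linarith
    calc t ^ 2 * (Y - X) * (X ^ 2 * Y ^ 2) = (t ^ 2 * (Y - X) * Y) * (X ^ 2 * Y) := by ring
      _ ≤ (A * ((Y - X) * (Y + X))) * (X ^ 2 * Y) :=
          mul_le_mul_of_nonneg_right h6 (by positivity)
  have e5 : Y - X ≤ r ^ 3 * t * (t ^ 2 * (Y - X) / (X ^ 2 * Y)) := by
    have e6 : r ^ 3 * t * (t ^ 2 * (Y - X) / (X ^ 2 * Y)) =
        ((r * t) ^ 3) * (Y - X) / (X ^ 2 * Y) := by ring
    rw [e6, le_div_iff₀ (by positivity)]
    have h7 : X ^ 2 * Y ≤ (r * t) ^ 3 := by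
      have h8 : X ≤ r * t := by linarith
      calc X ^ 2 * Y ≤ (r * t) ^ 2 * (r * t) := by
            apply mul_le_mul _ hyR hy0.le (by positivity)
            exact pow_le_pow_left₀ hx0.le h8 2
        _ = (r * t) ^ 3 := by ring
    have h9 : 0 ≤ Y - X := by linarith
    calc (Y - X) * (X ^ 2 * Y) ≤ (Y - X) * (r * t) ^ 3 := mul_le_mul_of_nonneg_left h7 h9
      _ = (r * t) ^ 3 * (Y - X) := by ring
  calc Y - X ≤ r ^ 3 * t * (t ^ 2 * (Y - X) / (X ^ 2 * Y)) := e5
    _ ≤ r ^ 3 * t * (A1 / X ^ 2 - A / Y ^ 2) := by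
        apply mul_le_mul_of_nonneg_left (e3.trans e2) (by positivity)

/-- `t'` ends a short gap between two times of large gcd without a fairly large gcd in between -/
def Exc (a : ℕ → ℤ) (u : ℕ → ℕ) (T L L' J t' : ℕ) : Prop :=
  ∃ t, T ≤ t ∧ t < t' ∧ t' ≤ t + J ∧ T ≤ L * g a u t ∧ T ≤ L * g a u t' ∧
    ∀ s, t < s → s < t' → L' * g a u s < T

/-- the times at which `q ρ` is close to `m` -/
lemma card_near (h : Rec a u) {R T W : ℕ} (hT : 2 ≤ T) (hW : W ≤ R * T)
    (hA : ∀ t, T ≤ t → t < W → (T : ℤ) ^ 2 ≤ a t) (q m : ℤ) (hq : q ≠ 0) (κ : ℝ) (hκ : 0 ≤ κ)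
    (S : Finset ℕ) (hS : ∀ t ∈ S, T ≤ t ∧ t < W ∧
      |(q : ℝ) * (a (t - 1) / (t : ℝ) ^ 2) - m| ≤ κ) :
    (S.card : ℝ) ≤ (R : ℝ) ^ 3 * T * (2 * κ) + 1 := by
  apply card_le_of_diam S _ (by positivity)
  intro x hx y hy hxy
  obtain ⟨x1, x2, x3⟩ := hS x hx
  obtain ⟨y1, y2, y3⟩ := hS y hy
  have h1 := rho_gap h (R := R) hT x1 hxy (by omega) (hA (y - 1) (by omega) (by omega))
  refine h1.trans ?_
  apply mul_le_mul_of_nonneg_left _ (by positivity)
  have hq1 : (1 : ℝ) ≤ |(q : ℝ)| := by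
    have : 1 ≤ |q| := Int.one_le_abs hq
    exact_mod_cast this
  generalize (a (x - 1) : ℝ) / (x : ℝ) ^ 2 = r1 at x3 ⊢
  generalize (a (y - 1) : ℝ) / (y : ℝ) ^ 2 = r2 at y3 ⊢
  have h2 : |(q : ℝ)| * |r1 - r2| ≤ 2 * κ := by
    rw [← abs_mul]
    have : (q : ℝ) * (r1 - r2) = (q * r1 - m) - (q * r2 - m) := by ring
    rw [this]
    refine (abs_sub _ _).trans ?_
    linarith
  have h3 : |r1 - r2| ≤ |(q : ℝ)| * |r1 - r2| := by
    have := mul_le_mul_of_nonneg_right hq1 (abs_nonneg (r1 - r2))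
    linarith
  exact (le_abs_self _).trans (h3.trans h2)

/-- if every element of `X` is near for some pair `(q, m)` then `X` is small -/
lemma card_exc (h : Rec a u) {R H T W Q : ℕ} (hT : 2 ≤ T) (hW : W ≤ R * T)
    (hA : ∀ t, T ≤ t → t < W → (T : ℤ) ^ 2 ≤ a t ∧ 0 ≤ a (t - 1) ∧ a (t - 1) ≤ H * (T : ℤ) ^ 2)
    (κ : ℝ) (hκ : 0 ≤ κ) (hκ1 : κ ≤ 1) (X : Finset ℕ)
    (hX : ∀ t ∈ X, T ≤ t ∧ t < W ∧ ∃ q m : ℤ, q ≠ 0 ∧ |q| ≤ (Q : ℤ) ∧
      |(q : ℝ) * (a (t - 1) / (t : ℝ) ^ 2) - m| ≤ κ) :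
    (X.card : ℝ) ≤ ((2 * Q + 1) * (2 * (Q * H + 1) + 1) : ℕ) *
      ((R : ℝ) ^ 3 * T * (2 * κ) + 1) := by
  classical
  set I : Finset (ℤ × ℤ) := (Icc (-(Q : ℤ)) Q) ×ˢ (Icc (-((Q * H + 1 : ℕ) : ℤ)) (Q * H + 1 : ℕ))
    with hI
  have hIc : I.card = (2 * Q + 1) * (2 * (Q * H + 1) + 1) := by
    rw [hI, card_product, Int.card_Icc, Int.card_Icc]
    congr 1 <;> omega
  set S : ℤ × ℤ → Finset ℕ := fun p =>
    X.filter (fun t => p.1 ≠ 0 ∧ |(p.1 : ℝ) * (a (t - 1) / (t : ℝ) ^ 2) - p.2| ≤ κ) with hSdef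
  have hcov : X ⊆ I.biUnion S := by
    intro t ht
    obtain ⟨h1, h2, q, m, h3, h4, h5⟩ := hX t ht
    rw [mem_biUnion]
    refine ⟨(q, m), ?_, ?_⟩
    · rw [hI, mem_product, mem_Icc, mem_Icc]
      have h6 := abs_le.1 h4
      refine ⟨h6, ?_⟩
      obtain ⟨_, h7, h8⟩ := hA t h1 h2
      have h7r : (0 : ℝ) ≤ a (t - 1) := by exact_mod_cast h7
      have h8r : (a (t - 1) : ℝ) ≤ H * (T : ℝ) ^ 2 := by exact_mod_cast h8
      have hT0 : (0 : ℝ) < T := by exact_mod_cast (by omega : 0 < T)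
      have hxr : (T : ℝ) ≤ t := by exact_mod_cast h1
      have ht0 : (0 : ℝ) < t := by linarith
      have h9 : |(a (t - 1) : ℝ) / (t : ℝ) ^ 2| ≤ H := by
        rw [abs_of_nonneg (by positivity), div_le_iff₀ (by positivity)]
        refine h8r.trans ?_
        apply mul_le_mul_of_nonneg_left _ (by positivity)
        exact pow_le_pow_left₀ hT0.le hxr 2
      have h4r : |(q : ℝ)| ≤ Q := by exact_mod_cast h4
      have h10 : |(q : ℝ) * (a (t - 1) / (t : ℝ) ^ 2)| ≤ Q * H := by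
        rw [abs_mul]
        exact mul_le_mul h4r h9 (abs_nonneg _) (by positivity)
      have h11 : |(m : ℝ)| ≤ Q * H + 1 := by
        have : (m : ℝ) = (q : ℝ) * (a (t - 1) / (t : ℝ) ^ 2)
          - ((q : ℝ) * (a (t - 1) / (t : ℝ) ^ 2) - m) := by ring
        rw [this]
        refine (abs_sub _ _).trans ?_
        linarith
      have h12 : |m| ≤ ((Q * H + 1 : ℕ) : ℤ) := by exact_mod_cast h11
      exact abs_le.1 h12
    · rw [hSdef]
      simp only [mem_filter]
      exact ⟨ht, h3, h5⟩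
  have h1 : (X.card : ℝ) ≤ ∑ p ∈ I, ((S p).card : ℝ) := by
    have := (card_le_card hcov).trans card_biUnion_le
    exact_mod_cast this
  refine h1.trans ?_
  have h2 : ∀ p ∈ I, ((S p).card : ℝ) ≤ (R : ℝ) ^ 3 * T * (2 * κ) + 1 := by
    intro p _
    by_cases hp : p.1 = 0
    · have : S p = ∅ := by
        rw [hSdef]
        apply filter_eq_empty_iff.2
        intro t _ h3
        exact h3.1 hp
      rw [this]
      simp only [card_empty, Nat.cast_zero]
      positivity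
    · apply card_near h hT hW (fun t h1 h2 => (hA t h1 h2).1) p.1 p.2 hp κ hκ
      intro t ht
      rw [hSdef] at ht
      simp only [mem_filter] at ht
      obtain ⟨h3, h4, _⟩ := hX t ht.1
      exact ⟨h3, h4, ht.2.2⟩
  calc ∑ p ∈ I, ((S p).card : ℝ) ≤ ∑ p ∈ I, ((R : ℝ) ^ 3 * T * (2 * κ) + 1) := sum_le_sum h2
    _ = _ := by rw [sum_const, nsmul_eq_mul, hIc]

lemma step (R H J L e : ℕ) (hR : 1 ≤ R) (he : 1 ≤ e) :
    ∃ L' T₀ : ℕ, L ≤ L' ∧ ∀ T, T₀ ≤ T → ∀ W, W ≤ R * T → ∀ (a : ℕ → ℤ) (u : ℕ → ℕ), Rec a u →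
      (∀ t, T ≤ t → t < W →
        (T : ℤ) ^ 2 ≤ a t ∧ 0 ≤ a (t - 1) ∧ a (t - 1) ≤ H * (T : ℤ) ^ 2) →
      ∀ X : Finset ℕ, (∀ t' ∈ X, T ≤ t' ∧ t' < W ∧ Exc a u T L L' J t') → e * X.card ≤ T := by
  obtain ⟨P2, hP2⟩ : ∃ P2, P2 = (L * (R + 1)) ^ 2 := ⟨_, rfl⟩
  obtain ⟨Q, hQ⟩ : ∃ Q, Q = P2 * (J + 6) := ⟨_, rfl⟩
  obtain ⟨n, hn⟩ : ∃ n, n = (2 * Q + 1) * (2 * (Q * H + 1) + 1) := ⟨_, rfl⟩
  have hn1 : 1 ≤ n := by rw [hn]; exact Nat.mul_pos (by omega) (by omega)
  obtain ⟨K, hK⟩ : ∃ K, K = 4 * e * n * R ^ 3 := ⟨_, rfl⟩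
  have hK1 : 1 ≤ K := by
    rw [hK]
    have : 0 < R ^ 3 := by positivity
    have : 0 < 4 * e * n * R ^ 3 := by positivity
    omega
  refine ⟨2 * (P2 * J) * K + 1 + L, 2 * (Q * (H * (J + 48))) * K + 2 * e * n + 6, by omega, ?_⟩
  intro T hT W hW a u h hA X hX
  have hT6 : 6 ≤ T := by omega
  have hT0 : (0 : ℝ) < T := by exact_mod_cast (by omega : 0 < T)
  have hK0 : (0 : ℝ) < K := by exact_mod_cast hK1
  have hPK : P2 * J ≤ 2 * (P2 * J) * K := by
    calc P2 * J = (P2 * J) * 1 := by ring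
      _ ≤ (P2 * J) * (2 * K) := Nat.mul_le_mul_left _ (by omega)
      _ = _ := by ring
  have hc := card_exc (R := R) (H := H) (T := T) (W := W) (Q := Q) h (by omega) hW hA (1 / (K : ℝ))
    (by positivity) (by rw [div_le_one hK0]; exact_mod_cast hK1) X (by
      intro t' ht'
      obtain ⟨h1, h2, t, h3, h4, h5, h6, h7, h8⟩ := hX t' ht'
      obtain ⟨_, hA0, hA1⟩ := hA t' h1 h2
      obtain ⟨q, m, hq, hqQ, hest⟩ := near h (R := R) (H := H) (J := J) (L := L) hT6 h3 h4 h5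
        (by omega) h6 h7 h8 (by rw [← hP2]; omega) hA0 hA1
      refine ⟨h1, h2, q, m, hq, ?_, hest.trans ?_⟩
      · rw [hQ, hP2]; exact hqQ
      · rw [← hP2, ← hQ]
        have e1 : (P2 : ℝ) * J / ((2 * (P2 * J) * K + 1 + L : ℕ) : ℝ) ≤ 1 / (2 * K) := by
          rw [div_le_div_iff₀ (by positivity) (by positivity)]
          push_cast
          have : (0 : ℝ) ≤ L := by positivity
          nlinarith
        have e2 : (Q : ℝ) * ((H : ℝ) * (J + 48)) / T ≤ 1 / (2 * K) := by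
          rw [div_le_div_iff₀ hT0 (by positivity)]
          have : 2 * (Q * (H * (J + 48))) * K ≤ T := by omega
          have h9 : (2 : ℝ) * (Q * (H * (J + 48))) * K ≤ T := by exact_mod_cast this
          linarith
        have e3 : 1 / (2 * (K : ℝ)) + 1 / (2 * K) = 1 / K := by
          field_simp; norm_num
        rw [← e3]
        exact add_le_add e1 e2)
  rw [← hn] at hc
  have hR0 : (0 : ℝ) < R := by exact_mod_cast hR
  have he0 : (0 : ℝ) < e := by exact_mod_cast he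
  have hn0 : (0 : ℝ) < n := by exact_mod_cast hn1
  have e4 : (e : ℝ) * (n * ((R : ℝ) ^ 3 * T * (2 * (1 / (K : ℝ))) + 1)) = T / 2 + e * n := by
    rw [hK]
    push_cast
    field_simp
    ring
  have h10 : (e : ℝ) * X.card ≤ T / 2 + e * n := by
    rw [← e4]
    exact mul_le_mul_of_nonneg_left hc he0.le
  have h11 : (2 : ℝ) * e * n ≤ T := by
    have : 2 * e * n ≤ T := by omega
    exact_mod_cast this
  have h12 : (e : ℝ) * X.card ≤ T := by linarith
  exact_mod_cast h12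

/-- within a block of `J` consecutive times: two times of large gcd produce an exceptional time -/
lemma block {T W J k : ℕ} (Ls : ℕ → ℕ) (hmono : ∀ i, Ls i ≤ Ls (i + 1)) (hJ : 1 ≤ J)
    (B : Finset ℕ) (hB : B = (Ico T W).filter (fun t => t / J = k))
    (h2 : 2 ≤ (B.filter (fun t => T ≤ Ls 0 * g a u t)).card) :
    ∃ i < J, ∃ t' ∈ B, Exc a u T (Ls i) (Ls (i + 1)) J t' := by
  have hBJ : B.card ≤ J := by
    have h1 : B ⊆ Ico (J * k) (J * k + J) := by
      intro t ht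
      rw [hB, mem_filter] at ht
      rw [mem_Ico]
      have h3 := Nat.div_add_mod t J
      have h4 := Nat.mod_lt t (by omega : J > 0)
      rw [ht.2] at h3
      omega
    have := card_le_card h1
    rw [Nat.card_Ico] at this
    omega
  set E : ℕ → Finset ℕ := fun i => B.filter (fun t => T ≤ Ls i * g a u t) with hE
  have hEm : ∀ i, E i ⊆ E (i + 1) := by
    intro i t ht
    rw [hE] at ht ⊢
    simp only [mem_filter] at ht ⊢
    exact ⟨ht.1, ht.2.trans (Nat.mul_le_mul_right _ (hmono i))⟩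
  have hex : ∃ i < J, (E (i + 1)).card ≤ (E i).card ∧ 2 ≤ (E i).card := by
    by_contra hc
    push Not at hc
    have h3 : ∀ i, i ≤ J → i + 2 ≤ (E i).card := by
      intro i
      induction i with
      | zero => intro _; simpa [hE] using h2
      | succ i ih =>
        intro hi
        have h4 := ih (by omega)
        by_contra h5
        have := hc i (by omega) (by omega)
        omega
    have h4 := h3 J le_rfl
    have h5 : (E J).card ≤ B.card := card_le_card (filter_subset _ _)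
    omega
  obtain ⟨i, hi, h3, h4⟩ := hex
  have hEE : E i = E (i + 1) := eq_of_subset_of_card_le (hEm i) h3
  obtain ⟨x, hx, y, hy, hxy⟩ := one_lt_card.1 (by omega : 1 < (E i).card)
  -- wlog x < y
  have key : ∀ x y, x ∈ E i → y ∈ E i → x < y →
      ∃ i < J, ∃ t' ∈ B, Exc a u T (Ls i) (Ls (i + 1)) J t' := by
    intro x y hx hy hxy
    have hne : ((E i).filter (fun s => x < s)).Nonempty := ⟨y, mem_filter.2 ⟨hy, hxy⟩⟩
    set t' := ((E i).filter (fun s => x < s)).min' hne with ht'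
    have h5 : t' ∈ (E i).filter (fun s => x < s) := min'_mem _ _
    rw [mem_filter] at h5
    have hxE : x ∈ B ∧ T ≤ Ls i * g a u x := by
      have := hx; rw [hE] at this; simpa only [mem_filter] using this
    have htE : t' ∈ B ∧ T ≤ Ls i * g a u t' := by
      have := h5.1; rw [hE] at this; simpa only [mem_filter] using this
    have hxB := hxE.1
    have htB := htE.1
    rw [hB, mem_filter, mem_Ico] at hxB htB
    refine ⟨i, hi, t', htE.1, x, hxB.1.1, h5.2, ?_, hxE.2, htE.2, ?_⟩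
    · have h6 := Nat.div_add_mod x J
      have h7 := Nat.div_add_mod t' J
      have h8 := Nat.mod_lt t' (by omega : J > 0)
      rw [hxB.2] at h6
      rw [htB.2] at h7
      omega
    · intro s hs1 hs2
      by_contra hc
      push Not at hc
      have hsB : s ∈ B := by
        rw [hB, mem_filter, mem_Ico]
        refine ⟨⟨by omega, by omega⟩, ?_⟩
        have h6 : x / J ≤ s / J := Nat.div_le_div_right hs1.le
        have h7 : s / J ≤ t' / J := Nat.div_le_div_right hs2.le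
        omega
      have hsE : s ∈ E (i + 1) := by
        rw [hE]; simp only [mem_filter]; exact ⟨hsB, hc⟩
      rw [← hEE] at hsE
      have := min'_le _ s (mem_filter.2 ⟨hsE, hs1⟩ : s ∈ (E i).filter (fun s => x < s))
      omega
  rcases lt_or_gt_of_ne hxy with h5 | h5
  · exact key x y hx hy h5
  · exact key y x hy hx h5

/-- **the window lemma** -/
theorem window (R H : ℕ) (hR : 1 ≤ R) :
    ∃ T₀ : ℕ, ∀ T, T₀ ≤ T → ∀ W, W ≤ R * T → ∀ (a : ℕ → ℤ) (u : ℕ → ℕ), Rec a u →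
      (∀ t, T ≤ t → t < W →
        (T : ℤ) ^ 2 ≤ a t ∧ 0 ≤ a (t - 1) ∧ a (t - 1) ≤ H * (T : ℤ) ^ 2) →
      ∑ t ∈ Ico T W, g a u t ≤ T ^ 2 := by
  obtain ⟨J, hJ⟩ : ∃ J, J = 8 * R * (R + 1) := ⟨_, rfl⟩
  have hJ1 : 1 ≤ J := by
    rw [hJ]
    have : 0 < 8 * R * (R + 1) := by positivity
    omega
  obtain ⟨e, he⟩ : ∃ e, e = 8 * (R + 1) * J ^ 2 := ⟨_, rfl⟩
  have he1 : 1 ≤ e := by
    rw [he]
    have : 0 < 8 * (R + 1) * J ^ 2 := by positivity
    omega
  choose F T1 hF1 hF2 using fun L : ℕ => step R H J L e hR he1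
  set Ls : ℕ → ℕ := fun i => F^[i] (2 * R) with hLs
  have hLs0 : Ls 0 = 2 * R := by rw [hLs]; rfl
  have hLss : ∀ i, Ls (i + 1) = F (Ls i) := by
    intro i; rw [hLs]; exact Function.iterate_succ_apply' F i _
  have hmono : ∀ i, Ls i ≤ Ls (i + 1) := by
    intro i; rw [hLss]; exact hF1 _
  refine ⟨∑ i ∈ range J, T1 (Ls i) + 8 * (R + 1) + 6, ?_⟩
  intro T hT W hW a u h hA
  classical
  set E0 := (Ico T W).filter (fun t => T ≤ Ls 0 * g a u t) with hE0
  set X : ℕ → Finset ℕ := fun i =>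
    (Ico T W).filter (fun t => Exc a u T (Ls i) (Ls (i + 1)) J t) with hX
  have hXc : ∀ i ∈ range J, e * (X i).card ≤ T := by
    intro i hi
    have h1 : T1 (Ls i) ≤ ∑ i ∈ range J, T1 (Ls i) :=
      single_le_sum (f := fun i => T1 (Ls i)) (fun _ _ => Nat.zero_le _) hi
    apply hF2 (Ls i) T (by omega) W hW a u h hA
    intro t' ht'
    rw [hX] at ht'
    simp only [mem_filter, mem_Ico] at ht'
    rw [hLss] at ht'
    exact ⟨ht'.1.1, ht'.1.2, ht'.2⟩
  set Xa := (range J).biUnion X with hXa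
  have hXac : e * Xa.card ≤ J * T := by
    calc e * Xa.card ≤ e * ∑ i ∈ range J, (X i).card := Nat.mul_le_mul_left _ card_biUnion_le
      _ = ∑ i ∈ range J, e * (X i).card := by rw [mul_sum]
      _ ≤ ∑ i ∈ range J, T := sum_le_sum hXc
      _ = J * T := by rw [sum_const, card_range, smul_eq_mul]
  -- the fibres of `t ↦ t / J`
  have hfib : ∀ k ∈ E0.image (· / J), (E0.filter (fun t => t / J = k)).card ≤
      1 + J * (if k ∈ Xa.image (· / J) then 1 else 0) := by
    intro k _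
    have e1 : E0.filter (fun t => t / J = k) =
        ((Ico T W).filter (fun t => t / J = k)).filter (fun t => T ≤ Ls 0 * g a u t) := by
      rw [hE0, filter_filter, filter_filter]
      congr 1
      funext t
      exact propext and_comm
    by_cases h2 : 2 ≤ (E0.filter (fun t => t / J = k)).card
    · rw [e1] at h2
      obtain ⟨i, hi, t', ht', hexc⟩ := block Ls hmono hJ1 _ rfl h2
      rw [mem_filter] at ht'
      have h3 : k ∈ Xa.image (· / J) := by
        rw [mem_image]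
        refine ⟨t', ?_, ht'.2⟩
        rw [hXa, mem_biUnion]
        refine ⟨i, mem_range.2 hi, ?_⟩
        rw [hX]
        simp only [mem_filter]
        exact ⟨ht'.1, hexc⟩
      rw [if_pos h3]
      have h4 : (E0.filter (fun t => t / J = k)).card ≤ J := by
        have h1 : E0.filter (fun t => t / J = k) ⊆ Ico (J * k) (J * k + J) := by
          intro t ht
          rw [mem_filter] at ht
          rw [mem_Ico]
          have h3 := Nat.div_add_mod t J
          have h4 := Nat.mod_lt t (by omega : J > 0)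
          rw [ht.2] at h3
          omega
        have := card_le_card h1
        rw [Nat.card_Ico] at this
        omega
      omega
    · have : 0 ≤ J * (if k ∈ Xa.image (· / J) then 1 else 0) := Nat.zero_le _
      omega
  have hE0c : E0.card ≤ (R * T / J + 1) + J * Xa.card := by
    have h1 : E0.card = ∑ k ∈ E0.image (· / J), (E0.filter (fun t => t / J = k)).card :=
      card_eq_sum_card_image (· / J) E0
    rw [h1]
    refine (sum_le_sum hfib).trans ?_
    rw [sum_add_distrib, ← mul_sum, sum_const, smul_eq_mul, mul_one]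
    apply Nat.add_le_add
    · have h2 : E0.image (· / J) ⊆ range (R * T / J + 1) := by
        intro k hk
        rw [mem_image] at hk
        obtain ⟨t, ht, rfl⟩ := hk
        rw [hE0, mem_filter, mem_Ico] at ht
        rw [mem_range]
        have : t / J ≤ R * T / J := Nat.div_le_div_right (by omega)
        omega
      have := card_le_card h2
      rwa [card_range] at this
    · apply Nat.mul_le_mul_left
      rw [← sum_filter]
      rw [sum_const, smul_eq_mul, mul_one]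
      have h2 : (E0.image (· / J)).filter (· ∈ Xa.image (· / J)) ⊆ Xa.image (· / J) := by
        intro k hk
        exact (mem_filter.1 hk).2
      exact (card_le_card h2).trans card_image_le
  have h8 : 8 * (R + 1) * E0.card ≤ 3 * T := by
    have h1 : 8 * (R + 1) * (R * T / J) ≤ T := by
      have h2 : J * (R * T / J) ≤ R * T := Nat.mul_div_le _ _
      have h3 : R * (8 * (R + 1) * (R * T / J)) ≤ R * T := by
        calc R * (8 * (R + 1) * (R * T / J)) = J * (R * T / J) := by rw [hJ]; ring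
          _ ≤ _ := h2
      exact Nat.le_of_mul_le_mul_left h3 (by omega)
    have h4 : 8 * (R + 1) * (J * Xa.card) ≤ T := by
      have h5 : J * (8 * (R + 1) * (J * Xa.card)) ≤ J * T := by
        calc J * (8 * (R + 1) * (J * Xa.card)) = e * Xa.card := by rw [he]; ring
          _ ≤ _ := hXac
      exact Nat.le_of_mul_le_mul_left h5 (by omega)
    have h5 : 8 * (R + 1) * E0.card ≤ 8 * (R + 1) * ((R * T / J + 1) + J * Xa.card) :=
      Nat.mul_le_mul_left _ hE0c
    have h6 : 8 * (R + 1) * ((R * T / J + 1) + J * Xa.card) =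
        8 * (R + 1) * (R * T / J) + 8 * (R + 1) + 8 * (R + 1) * (J * Xa.card) := by ring
    omega
  -- the sum
  have hsplit : ∑ t ∈ Ico T W, g a u t = ∑ t ∈ E0, g a u t +
      ∑ t ∈ (Ico T W).filter (fun t => ¬ T ≤ Ls 0 * g a u t), g a u t := by
    rw [hE0]
    exact (sum_filter_add_sum_filter_not _ _ _).symm
  have hs1 : ∑ t ∈ E0, g a u t ≤ E0.card * ((R + 1) * T) := by
    rw [← smul_eq_mul]
    apply sum_le_card_nsmul
    intro t ht
    rw [hE0, mem_filter, mem_Ico] at ht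
    have h1 := g_le h (t := t) (by omega)
    have h2 : (R + 1) * T = R * T + T := by ring
    omega
  have hs2 : 2 * ∑ t ∈ (Ico T W).filter (fun t => ¬ T ≤ Ls 0 * g a u t), g a u t ≤ T ^ 2 := by
    have h1 : 2 * R * ∑ t ∈ (Ico T W).filter (fun t => ¬ T ≤ Ls 0 * g a u t), g a u t ≤
        R * T * T := by
      rw [mul_sum]
      calc ∑ t ∈ (Ico T W).filter (fun t => ¬ T ≤ Ls 0 * g a u t), 2 * R * g a u t
          ≤ ((Ico T W).filter (fun t => ¬ T ≤ Ls 0 * g a u t)).card • T := by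
            apply sum_le_card_nsmul
            intro t ht
            rw [mem_filter, hLs0] at ht
            omega
        _ = ((Ico T W).filter (fun t => ¬ T ≤ Ls 0 * g a u t)).card * T := smul_eq_mul ..
        _ ≤ (R * T) * T := by
            apply Nat.mul_le_mul_right
            refine (card_filter_le _ _).trans ?_
            rw [Nat.card_Ico]
            omega
    have h2 : R * (2 * ∑ t ∈ (Ico T W).filter (fun t => ¬ T ≤ Ls 0 * g a u t), g a u t) ≤
        R * T ^ 2 := by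
      calc R * (2 * ∑ t ∈ (Ico T W).filter (fun t => ¬ T ≤ Ls 0 * g a u t), g a u t)
          = 2 * R * ∑ t ∈ (Ico T W).filter (fun t => ¬ T ≤ Ls 0 * g a u t), g a u t := by ring
        _ ≤ R * T * T := h1
        _ = R * T ^ 2 := by ring
    exact Nat.le_of_mul_le_mul_left h2 (by omega)
  have hs3 : 8 * ∑ t ∈ E0, g a u t ≤ 3 * T ^ 2 := by
    calc 8 * ∑ t ∈ E0, g a u t ≤ 8 * (E0.card * ((R + 1) * T)) := Nat.mul_le_mul_left _ hs1
      _ = (8 * (R + 1) * E0.card) * T := by ring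
      _ ≤ (3 * T) * T := Nat.mul_le_mul_right _ h8
      _ = 3 * T ^ 2 := by ring
  rw [hsplit]
  omega

end Pool.Agent.R797.GcdSqrt
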