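import Mathlib
import Pool.Agent.R797.GS.Window

/-!
# The gcd recursion for prime triples: `f(N) / √N → ∞`

The trivial lower bound for the zero `f(N)` is `√(2 N) - O(1)`, as the subtracted gcd at time `n`
is at most `n + 6`. Here: for all `B`, `D` and all large `N`, one has `a_N(n) ≥ (1 - 1/D) N` for all
`n ≤ √(B N)`, and so `f(N) > √(B N)`.
-/

set_option autoImplicit false

namespace Pool.Agent.R797.GcdSqrt.BeyondSqrt

open Finset Pool.Agent.R797.GcdSqrt

/-- The 3-periodic sequence `2, 6, 0, 2, 6, 0, …` (indexed from 1). -/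
def b (n : ℕ) : ℕ := if n % 3 = 1 then 2 else if n % 3 = 2 then 6 else 0

lemma rec_of (a : ℕ → ℤ)
    (ha : ∀ n : ℕ, 2 ≤ n →
      a n = a (n - 1) - ((Int.gcd (a (n - 1)) ((n + b n : ℕ) : ℤ) : ℕ) : ℤ)) :
    Rec a (fun n => n + b n) := by
  refine ⟨ha, fun t => Nat.le_add_right _ _, ?_, ?_⟩
  · intro t
    simp only [b]
    split_ifs <;> omega
  · intro t
    simp only [b]
    split_ifs <;> omega

lemma telescope {a : ℕ → ℤ} {u : ℕ → ℕ} (h : Rec a u) (n : ℕ) (hn : 1 ≤ n) :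
    a 1 - a n = ((∑ t ∈ Ico 2 (n + 1), g a u t : ℕ) : ℤ) := by
  induction n, hn using Nat.le_induction with
  | base => simp
  | succ n hn ih =>
    rw [sum_Ico_succ_top (by omega)]
    have h1 := h.step (n + 1) (by omega)
    rw [Nat.add_sub_cancel] at h1
    push_cast at ih ⊢
    linarith

lemma aux1 (B : ℕ) : B ≤ (B + 1) ^ 2 := by nlinarith

lemma aux2 (D : ℕ) : 5 * D ≤ (4 * D) ^ 2 := by
  rcases Nat.eq_zero_or_pos D with rfl | h
  · simp
  · nlinarith

lemma aux3 {T : ℕ} (h : 6 ≤ T) : 36 ≤ T ^ 2 := by nlinarith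

/-- the general form: the loss up to time `O(√N)` is `o(N)` -/
theorem general (B D : ℕ) (hD : 2 ≤ D) : ∃ N₀ : ℕ, ∀ N : ℕ, N₀ ≤ N → ∀ (a : ℕ → ℤ) (u : ℕ → ℕ),
    Rec a u → a 1 = (N : ℤ) - 6 →
    ∀ n : ℕ, 1 ≤ n → n ^ 2 ≤ B * N → (D : ℤ) * ((N : ℤ) - a n) ≤ N := by
  obtain ⟨c, hc⟩ : ∃ c, c = 4 * D := ⟨_, rfl⟩
  obtain ⟨R, hR⟩ : ∃ R, R = 2 * c * (B + 1) := ⟨_, rfl⟩
  have hc8 : 8 ≤ c := by omega
  have hR1 : 1 ≤ R := by
    rw [hR]
    have : 0 < 2 * c * (B + 1) := by positivity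
    omega
  obtain ⟨T₀, hT₀⟩ := window R (4 * c ^ 2) hR1
  refine ⟨(c * (T₀ + R + 6)) ^ 2, ?_⟩
  intro N hN a u h ha1
  obtain ⟨s, hs⟩ : ∃ s, s = Nat.sqrt N := ⟨_, rfl⟩
  have hs1 : s ^ 2 ≤ N := by rw [hs, pow_two]; exact Nat.sqrt_le N
  have hs2 : N < (s + 1) ^ 2 := by rw [hs, pow_two]; exact Nat.lt_succ_sqrt N
  have hsbig : c * (T₀ + R + 6) ≤ s := by
    by_contra hlt
    push Not at hlt
    have : (s + 1) ^ 2 ≤ (c * (T₀ + R + 6)) ^ 2 := Nat.pow_le_pow_left (by omega) 2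
    omega
  obtain ⟨T, hT⟩ : ∃ T, T = s / c := ⟨_, rfl⟩
  have hT1 : T₀ + R + 6 ≤ T := by
    rw [hT, Nat.le_div_iff_mul_le (by omega)]
    rw [Nat.mul_comm]; exact hsbig
  have hcT : c * T ≤ s := by rw [hT]; exact Nat.mul_div_le s c
  have hcT' : s + 1 ≤ c * (T + 1) := by
    have h1 := Nat.div_add_mod s c
    have h2 := Nat.mod_lt s (by omega : c > 0)
    have h3 : c * (T + 1) = c * (s / c) + c := by rw [hT]; ring
    omega
  have hN1 : c ^ 2 * T ^ 2 ≤ N := by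
    calc c ^ 2 * T ^ 2 = (c * T) ^ 2 := by ring
      _ ≤ s ^ 2 := Nat.pow_le_pow_left hcT 2
      _ ≤ N := hs1
  have hN2 : N ≤ 4 * c ^ 2 * T ^ 2 := by
    calc N ≤ (s + 1) ^ 2 := hs2.le
      _ ≤ (c * (T + 1)) ^ 2 := Nat.pow_le_pow_left hcT' 2
      _ ≤ (c * (2 * T)) ^ 2 := Nat.pow_le_pow_left (Nat.mul_le_mul_left _ (by omega)) 2
      _ = 4 * c ^ 2 * T ^ 2 := by ring
  have hle : ∀ n, 1 ≤ n → a n ≤ N := by
    intro n hn
    have h1 := anti h (t := 1) le_rfl (n - 1)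
    rw [show 1 + (n - 1) = n by omega, ha1] at h1
    have : (0 : ℤ) ≤ ((n - 1 : ℕ) : ℤ) := by positivity
    linarith
  have hhalf : ∀ n, 1 ≤ n → (D : ℤ) * ((N : ℤ) - a n) ≤ N → (T : ℤ) ^ 2 ≤ a n := by
    intro n hn h1
    have h2 := hle n hn
    have hDz : (2 : ℤ) ≤ D := by exact_mod_cast hD
    have h3 : (2 : ℤ) * ((N : ℤ) - a n) ≤ N := by
      have : (2 : ℤ) * ((N : ℤ) - a n) ≤ D * ((N : ℤ) - a n) :=
        mul_le_mul_of_nonneg_right hDz (by linarith)
      linarith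
    have h4 : 2 * T ^ 2 ≤ N := by
      calc 2 * T ^ 2 ≤ c ^ 2 * T ^ 2 := by
            apply Nat.mul_le_mul_right
            have := aux3 (T := c) (by omega)
            omega
        _ ≤ N := hN1
    have h5 : (2 : ℤ) * (T : ℤ) ^ 2 ≤ N := by exact_mod_cast h4
    linarith
  have main : ∀ n, 1 ≤ n → n ≤ R * T → (D : ℤ) * ((N : ℤ) - a n) ≤ N := by
    intro n
    induction n using Nat.strong_induction_on with
    | _ n ih =>
      intro hn hnR
      have hS := telescope h n hn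
      have h1 : ∑ t ∈ Ico T n, g a u t ≤ T ^ 2 := by
        apply hT₀ T (by omega) n hnR a u h
        intro t ht1 ht2
        refine ⟨hhalf t (by omega) (ih t ht2 (by omega) (by omega)), ?_, ?_⟩
        · have := hhalf (t - 1) (by omega) (ih (t - 1) (by omega) (by omega) (by omega))
          exact (sq_nonneg _).trans this
        · have h3 := hle (t - 1) (by omega)
          have h4 : (N : ℤ) ≤ ((4 * c ^ 2 : ℕ) : ℤ) * (T : ℤ) ^ 2 := by exact_mod_cast hN2
          exact h3.trans h4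
      have h2 : ∑ t ∈ Ico 2 T, g a u t ≤ 2 * T ^ 2 := by
        calc ∑ t ∈ Ico 2 T, g a u t ≤ (Ico 2 T).card • (T + 6) := by
              apply sum_le_card_nsmul
              intro t ht
              rw [mem_Ico] at ht
              have := g_le h (t := t) (by omega)
              omega
          _ ≤ T * (2 * T) := by
              rw [smul_eq_mul, Nat.card_Ico]
              exact Nat.mul_le_mul (by omega) (by omega)
          _ = 2 * T ^ 2 := by ring
      have h3 : g a u n ≤ T ^ 2 := by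
        have h4 := g_le h (t := n) hn
        have h5 : (R + 6) * T ≤ T * T := Nat.mul_le_mul_right _ (by omega)
        have h6 : (R + 6) * T = R * T + 6 * T := by ring
        have h7 : T * T = T ^ 2 := by ring
        omega
      have h4 : ∑ t ∈ Ico 2 (n + 1), g a u t ≤ 4 * T ^ 2 := by
        have h5 : Ico 2 (n + 1) ⊆ (Ico 2 T ∪ Ico T n) ∪ {n} := by
          intro t ht
          rw [mem_Ico] at ht
          rw [mem_union, mem_union, mem_Ico, mem_Ico, mem_singleton]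
          omega
        have h6 := sum_le_sum_of_subset (f := fun t => g a u t) h5
        have h7 := sum_union_inter (f := fun t => g a u t) (s₁ := Ico 2 T ∪ Ico T n) (s₂ := {n})
        have h8 := sum_union_inter (f := fun t => g a u t) (s₁ := Ico 2 T) (s₂ := Ico T n)
        rw [sum_singleton] at h7
        omega
      have h5 : (a 1 - a n : ℤ) ≤ ((4 * T ^ 2 : ℕ) : ℤ) := by
        rw [hS]; exact_mod_cast h4
      have h6 : (N : ℤ) - a n ≤ ((5 * T ^ 2 : ℕ) : ℤ) := by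
        have h7 : (36 : ℕ) ≤ T ^ 2 := aux3 (by omega)
        have h8 : (36 : ℤ) ≤ (T : ℤ) ^ 2 := by exact_mod_cast h7
        push_cast at h5 ⊢
        rw [ha1] at h5
        linarith
      have h7 : D * (5 * T ^ 2) ≤ N := by
        calc D * (5 * T ^ 2) = (5 * D) * T ^ 2 := by ring
          _ ≤ c ^ 2 * T ^ 2 := by
              apply Nat.mul_le_mul_right
              rw [hc]; exact aux2 D
          _ ≤ N := hN1
      calc (D : ℤ) * ((N : ℤ) - a n) ≤ D * ((5 * T ^ 2 : ℕ) : ℤ) :=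
            mul_le_mul_of_nonneg_left h6 (by positivity)
        _ ≤ N := by exact_mod_cast h7
  intro n hn hnB
  apply main n hn
  by_contra hlt
  push Not at hlt
  have h1 : (R * T) ^ 2 < n ^ 2 := Nat.pow_lt_pow_left hlt (by norm_num)
  have h2 : B * N ≤ (R * T) ^ 2 := by
    calc B * N ≤ B * (4 * c ^ 2 * T ^ 2) := Nat.mul_le_mul_left _ hN2
      _ ≤ (B + 1) ^ 2 * (4 * c ^ 2 * T ^ 2) := by
          apply Nat.mul_le_mul_right
          exact aux1 B
      _ = (R * T) ^ 2 := by rw [hR]; ring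
  omega

/-- For every `B` and `D` and all large `N`: `a_N(n) ≥ (1 - 1/D) N` for all `n ≤ √(B N)`, and
`f(N) > √(B N)`. So `f(N) / √N → ∞`. -/
theorem result :
    ∀ B D : ℕ, ∃ N₀ : ℕ, ∀ N : ℕ, N₀ ≤ N → ∀ a : ℕ → ℤ, a 1 = (N : ℤ) - 6 →
      (∀ n : ℕ, 2 ≤ n → a n = a (n - 1) - ((Int.gcd (a (n - 1)) ((n + b n : ℕ) : ℤ) : ℕ) : ℤ)) →
      (∀ n : ℕ, 1 ≤ n → n ^ 2 ≤ B * N → (D : ℤ) * ((N : ℤ) - a n) ≤ N) ∧
        ∀ f : ℕ, IsLeast {n : ℕ | 1 ≤ n ∧ a n = 0} f → B * N < f ^ 2 := by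
  intro B D
  obtain ⟨N₀, h₀⟩ := general B (D + 2) (by omega)
  refine ⟨N₀ + 1, ?_⟩
  intro N hN a ha1 ha
  have hrec := rec_of a ha
  have hmain := h₀ N (by omega) a _ hrec ha1
  have hle : ∀ n, 1 ≤ n → a n ≤ N := by
    intro n hn
    have h1 := anti hrec (t := 1) le_rfl (n - 1)
    rw [show 1 + (n - 1) = n by omega, ha1] at h1
    have : (0 : ℤ) ≤ ((n - 1 : ℕ) : ℤ) := by positivity
    linarith
  refine ⟨?_, ?_⟩
  · intro n hn hnB
    have h1 := hmain n hn hnB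
    have h2 := hle n hn
    push_cast at h1
    linarith
  · intro f hf
    obtain ⟨⟨hf1, haf⟩, _⟩ := hf
    by_contra hlt
    push Not at hlt
    have h1 := hmain f hf1 hlt
    rw [haf] at h1
    have h2 : (0 : ℤ) < N := by exact_mod_cast (by omega : 0 < N)
    have h3 : (0 : ℤ) ≤ (D : ℤ) * N := by positivity
    push_cast at h1
    linarith

end Pool.Agent.R797.GcdSqrt.BeyondSqrt
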